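import Mathlib

/-!
# The loneliness gap can drop under translation of the speed set

For every `n ≥ 2` and every positive integer `a` there is a set `V` of `n` positive integers with
`κ(a + V) < κ(V)`. For `a = 1` the gap can drop from the largest possible value `1 / 2` to the value
`1 / (n + 1)` of the lonely runner conjecture.
-/

namespace Pool.Agent.Results.MP_64d5df_nt.TranslationDropsGap

/-- The distance of a real number to the nearest integer. -/
noncomputable def dist1 (x : ℝ) : ℝ := |x - round x|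

/-- The loneliness gap `κ(V) = sup_t min_{v ∈ V} ‖t v‖` of a (finite, non-empty) set of speeds. -/
noncomputable def gap (V : Finset ℕ) : ℝ := ⨆ t : ℝ, ⨅ v : V, dist1 (t * ((v : ℕ) : ℝ))

/-- The translate `a + V`. -/
def translate (a : ℕ) (V : Finset ℕ) : Finset ℕ := V.image fun v => a + v

theorem dist1_le_half (x : ℝ) : dist1 x ≤ 1 / 2 := abs_sub_round x

theorem dist1_nonneg (x : ℝ) : 0 ≤ dist1 x := abs_nonneg _

theorem dist1_le (x : ℝ) (m : ℤ) : dist1 x ≤ |x - m| := round_le x m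

theorem inner_le {V : Finset ℕ} (t : ℝ) {v : ℕ} (hv : v ∈ V) :
    (⨅ w : V, dist1 (t * ((w : ℕ) : ℝ))) ≤ dist1 (t * (v : ℝ)) :=
  ciInf_le (f := fun w : V => dist1 (t * ((w : ℕ) : ℝ)))
    ⟨0, by rintro _ ⟨w, rfl⟩; exact dist1_nonneg _⟩ ⟨v, hv⟩

theorem gap_le {V : Finset ℕ} {c : ℝ}
    (h : ∀ t : ℝ, ∃ v ∈ V, dist1 (t * (v : ℝ)) ≤ c) : gap V ≤ c := by
  refine ciSup_le fun t => ?_
  obtain ⟨v, hv, h1⟩ := h t
  exact (inner_le t hv).trans h1

theorem bdd (V : Finset ℕ) (hV : V.Nonempty) :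
    BddAbove (Set.range fun t : ℝ => ⨅ v : V, dist1 (t * ((v : ℕ) : ℝ))) := by
  obtain ⟨v, hv⟩ := hV
  refine ⟨1 / 2, ?_⟩
  rintro _ ⟨t, rfl⟩
  exact (inner_le t hv).trans (dist1_le_half _)

theorem le_gap {V : Finset ℕ} (hV : V.Nonempty) {c : ℝ} (t : ℝ)
    (h : ∀ v ∈ V, c ≤ dist1 (t * (v : ℝ))) : c ≤ gap V := by
  have : Nonempty V := hV.to_subtype
  refine le_trans ?_ (le_ciSup (bdd V hV) t)
  exact le_ciInf fun v => h v v.2

/-- `‖x‖ ≥ c` as soon as `m + c ≤ x ≤ m + 1 - c` -/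
theorem le_dist1 {x c : ℝ} (m : ℤ) (h1 : (m : ℝ) + c ≤ x) (h2 : x ≤ m + 1 - c) : c ≤ dist1 x := by
  unfold dist1
  rw [le_abs]
  rcases le_or_gt (round x) m with h | h
  · left
    have : ((round x : ℤ) : ℝ) ≤ m := by exact_mod_cast h
    linarith
  · right
    have : (m : ℝ) + 1 ≤ ((round x : ℤ) : ℝ) := by exact_mod_cast h
    linarith

/-- the odd numbers `1, 3, …, 2 n - 1`, times `m` -/
def odds (m n : ℕ) : Finset ℕ := (Finset.range n).image fun i => m * (2 * i + 1)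

theorem odds_card {m : ℕ} (hm : 0 < m) (n : ℕ) : (odds m n).card = n := by
  unfold odds
  rw [Finset.card_image_of_injective, Finset.card_range]
  intro i j h
  have h2 := Nat.eq_of_mul_eq_mul_left hm h
  omega

theorem gap_odds (j n : ℕ) (hn : 0 < n) : gap (odds (2 ^ j) n) = 1 / 2 := by
  have hne : (odds (2 ^ j) n).Nonempty := by
    rw [← Finset.card_pos, odds_card (by positivity)]
    exact hn
  apply le_antisymm
  · obtain ⟨v, hv⟩ := hne
    exact gap_le fun t => ⟨v, hv, dist1_le_half _⟩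
  · refine le_gap hne (1 / 2 ^ (j + 1)) ?_
    intro v hv
    obtain ⟨i, _, rfl⟩ := Finset.mem_image.1 hv
    have e : (1 / 2 ^ (j + 1) : ℝ) * ((2 ^ j * (2 * i + 1) : ℕ) : ℝ) = (i : ℤ) + 1 / 2 := by
      push_cast
      field_simp
      ring
    rw [e]
    exact le_dist1 (i : ℤ) le_rfl (by linarith)

/-- two consecutive speeds `c`, `c + 1` (times `m`) cannot both be near `1 / 2` -/
theorem consecutive (c : ℕ) (x : ℝ) :
    min (dist1 (x * c)) (dist1 (x * (c + 1))) ≤ 1 / 2 - 1 / (4 * c + 2) := by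
  by_contra hcon
  push Not at hcon
  obtain ⟨h1, h2⟩ := lt_min_iff.1 hcon
  set u := x * (c : ℝ) with hu
  set w := x * ((c : ℝ) + 1) with hw
  -- the floors
  set p : ℤ := ⌊u⌋ with hp
  set q : ℤ := ⌊w⌋ with hq
  have a1 := dist1_le u p
  have a2 := dist1_le u (p + 1)
  have b1 := dist1_le w q
  have b2 := dist1_le w (q + 1)
  have f1 := Int.floor_le u
  have f2 := (Int.lt_floor_add_one u).le
  have g1 := Int.floor_le w
  have g2 := (Int.lt_floor_add_one w).le
  rw [abs_of_nonneg (by linarith)] at a1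
  rw [abs_of_nonneg (by linarith)] at b1
  rw [abs_of_nonpos (by push_cast; linarith)] at a2
  rw [abs_of_nonpos (by push_cast; linarith)] at b2
  push_cast at a2 b2
  have hc : (0 : ℝ) ≤ c := Nat.cast_nonneg c
  have hd : (0 : ℝ) < 4 * c + 2 := by positivity
  set d : ℝ := 1 / (4 * c + 2) with hdd
  have hdm : d * (4 * c + 2) = 1 := by rw [hdd]; field_simp
  have hrel : (c : ℝ) * w - (c + 1) * u = 0 := by rw [hu, hw]; ring
  -- `u = p + 1/2 + α`, `w = q + 1/2 + β` with `|α|, |β| < d`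
  have hα1 : u - p - 1 / 2 < d := by linarith
  have hα2 : -d < u - p - 1 / 2 := by linarith
  have hβ1 : w - q - 1 / 2 < d := by linarith
  have hβ2 : -d < w - q - 1 / 2 := by linarith
  have key : (c : ℝ) * q - (c + 1) * p - 1 / 2 = -(c * (w - q - 1 / 2) - (c + 1) * (u - p - 1 / 2)) := by
    linear_combination (-1 : ℝ) * hrel
  have k1 : c * (w - q - 1 / 2) - (c + 1) * (u - p - 1 / 2) < 1 / 2 := by
    have e1 : c * (w - q - 1 / 2) ≤ c * d := mul_le_mul_of_nonneg_left hβ1.le hc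
    have e2 : (c + 1) * (-d) < (c + 1) * (u - p - 1 / 2) :=
      mul_lt_mul_of_pos_left hα2 (by linarith)
    nlinarith
  have k2 : -(1 / 2) < c * (w - q - 1 / 2) - (c + 1) * (u - p - 1 / 2) := by
    have e1 : c * (-d) ≤ c * (w - q - 1 / 2) := mul_le_mul_of_nonneg_left hβ2.le hc
    have e2 : (c + 1) * (u - p - 1 / 2) < (c + 1) * d :=
      mul_lt_mul_of_pos_left hα1 (by linarith)
    nlinarith
  have m1 : ((((c : ℤ) * q - (c + 1) * p : ℤ)) : ℝ) < ((1 : ℤ) : ℝ) := by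
    push_cast
    linarith
  have m2 : (((0 : ℤ)) : ℝ) < (((c : ℤ) * q - (c + 1) * p : ℤ) : ℝ) := by
    push_cast
    linarith
  have m3 := Int.cast_lt.1 m1
  have m4 := Int.cast_lt.1 m2
  omega

theorem gap_translate_lt {n a j b : ℕ} (hn : 2 ≤ n) (ha : a = 2 ^ j * (2 * b + 1)) :
    gap (translate a (odds (2 ^ j) n)) < 1 / 2 := by
  have hpos : (0 : ℝ) < 1 / (4 * ((b + 1 : ℕ) : ℝ) + 2) := by positivity
  refine lt_of_le_of_lt (b := 1 / 2 - 1 / (4 * ((b + 1 : ℕ) : ℝ) + 2)) (gap_le fun t => ?_)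
    (by linarith)
  have h := consecutive (b + 1) (t * 2 ^ (j + 1))
  have mem : ∀ i < n, a + 2 ^ j * (2 * i + 1) ∈ translate a (odds (2 ^ j) n) := by
    intro i hi
    unfold translate
    rw [Finset.mem_image]
    exact ⟨_, Finset.mem_image.2 ⟨i, Finset.mem_range.2 hi, rfl⟩, rfl⟩
  rcases min_le_iff.1 h with h1 | h1
  · refine ⟨_, mem 0 (by omega), ?_⟩
    have e : t * ((a + 2 ^ j * (2 * 0 + 1) : ℕ) : ℝ) = t * 2 ^ (j + 1) * ((b + 1 : ℕ) : ℝ) := by
      rw [ha]
      push_cast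
      ring
    rw [e]
    exact h1
  · refine ⟨_, mem 1 (by omega), ?_⟩
    have e : t * ((a + 2 ^ j * (2 * 1 + 1) : ℕ) : ℝ) =
        t * 2 ^ (j + 1) * (((b + 1 : ℕ) : ℝ) + 1) := by
      rw [ha]
      push_cast
      ring
    rw [e]
    exact h1

/-- `κ({2, 4, …, 2 n}) = 1 / (n + 1)` -/
theorem gap_translate_one (n : ℕ) (hn : 0 < n) :
    gap (translate 1 (odds 1 n)) = 1 / ((n : ℝ) + 1) := by
  have mem : ∀ i < n, 2 * (i + 1) ∈ translate 1 (odds 1 n) := by
    intro i hi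
    unfold translate
    rw [Finset.mem_image]
    refine ⟨_, Finset.mem_image.2 ⟨i, Finset.mem_range.2 hi, rfl⟩, ?_⟩
    ring
  have hn1 : (0 : ℝ) < (n : ℝ) + 1 := by positivity
  apply le_antisymm
  · refine gap_le fun t => ?_
    obtain ⟨m, k, hk, hkn, h⟩ := Real.exists_int_int_abs_mul_sub_le (t * 2) hn
    obtain ⟨i, rfl⟩ : ∃ i : ℕ, k = i + 1 := ⟨(k - 1).toNat, by omega⟩
    refine ⟨_, mem i (by omega), (dist1_le _ m).trans ?_⟩
    have e : t * ((2 * (i + 1) : ℕ) : ℝ) - m = ((i + 1 : ℤ) : ℝ) * (t * 2) - m := by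
      push_cast
      ring
    rw [e]
    exact h
  · refine le_gap ⟨_, mem 0 hn⟩ (1 / (2 * ((n : ℝ) + 1))) ?_
    intro v hv
    unfold translate at hv
    rw [Finset.mem_image] at hv
    obtain ⟨w, hw, rfl⟩ := hv
    obtain ⟨i, hi, rfl⟩ := Finset.mem_image.1 hw
    have hi' : ((i : ℝ) + 1) ≤ n := by exact_mod_cast Finset.mem_range.1 hi
    have hi0 : (0 : ℝ) ≤ i := Nat.cast_nonneg i
    have e : 1 / (2 * ((n : ℝ) + 1)) * ((1 + 1 * (2 * i + 1) : ℕ) : ℝ) =
        (i + 1) / (n + 1) := by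
      push_cast
      field_simp
      ring
    rw [e]
    refine le_dist1 0 ?_ ?_
    · rw [Int.cast_zero, zero_add]
      exact div_le_div_of_nonneg_right (by linarith) hn1.le
    · rw [Int.cast_zero, zero_add, le_sub_iff_add_le, ← add_div, div_le_one hn1]
      linarith

/-- **The stronger statement (Q2) fails for every number `n ≥ 2` of speeds and every translation.**
(1) For every `n ≥ 2` and every positive integer `a` there is a set `V` of `n` positive integers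
with `κ(a + V) < κ(V)`.
(2) For every `n ≥ 2` there is a set `V` of `n` positive integers with `κ(a + V) < κ(V)` for all
odd `a`, however large.
(3) For every `n ≥ 1` there is a set `V` of `n` positive integers with `κ(V) = 1 / 2`, the largest
possible value, and `κ(1 + V) = 1 / (n + 1)`. -/
theorem result :
    (∀ n : ℕ, 2 ≤ n → ∀ a : ℕ, 1 ≤ a → ∃ V : Finset ℕ, V.card = n ∧ (∀ v ∈ V, 0 < v) ∧
      gap (translate a V) < gap V) ∧
    (∀ n : ℕ, 2 ≤ n → ∃ V : Finset ℕ, V.card = n ∧ (∀ v ∈ V, 0 < v) ∧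
      ∀ a : ℕ, Odd a → gap (translate a V) < gap V) ∧
    (∀ n : ℕ, 1 ≤ n → ∃ V : Finset ℕ, V.card = n ∧ (∀ v ∈ V, 0 < v) ∧
      gap V = 1 / 2 ∧ gap (translate 1 V) = 1 / ((n : ℝ) + 1)) := by
  have key : ∀ n : ℕ, 2 ≤ n → ∀ j : ℕ, ∃ V : Finset ℕ, V.card = n ∧ (∀ v ∈ V, 0 < v) ∧
      ∀ a b : ℕ, a = 2 ^ j * (2 * b + 1) → gap (translate a V) < gap V := by
    intro n hn j
    refine ⟨odds (2 ^ j) n, odds_card (by positivity) n, ?_, ?_⟩
    · intro v hv
      obtain ⟨i, _, rfl⟩ := Finset.mem_image.1 hv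
      positivity
    · intro a b hab
      rw [gap_odds j n (by omega)]
      exact gap_translate_lt hn hab
  refine ⟨fun n hn a ha => ?_, fun n hn => ?_, fun n hn => ?_⟩
  · obtain ⟨j, c, hc, hac⟩ := Nat.exists_eq_two_pow_mul_odd (n := a) (by omega)
    obtain ⟨b, rfl⟩ := hc
    obtain ⟨V, h1, h2, h3⟩ := key n hn j
    exact ⟨V, h1, h2, h3 a b hac⟩
  · obtain ⟨V, h1, h2, h3⟩ := key n hn 0
    refine ⟨V, h1, h2, fun a ha => ?_⟩
    obtain ⟨b, rfl⟩ := ha
    exact h3 _ b (by ring)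
  · refine ⟨odds 1 n, odds_card one_pos n, ?_, ?_, gap_translate_one n hn⟩
    · intro v hv
      obtain ⟨i, _, rfl⟩ := Finset.mem_image.1 hv
      positivity
    · have h := gap_odds 0 n hn
      rwa [pow_zero] at h

end Pool.Agent.Results.MP_64d5df_nt.TranslationDropsGap
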